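import Pool.Agent.H31.Hoffman.Scalar

/-!
# Weighted `r`-graphs on `k` vertices: the two-coordinate averaging argument
-/

set_option autoImplicit false

set_option linter.unusedSectionVars false

namespace Pool.Agent.H31.Hoffman

open Finset

variable {ι : Type} [Fintype ι] [DecidableEq ι]

/-- `∑ |x_i|^p` -/
noncomputable def NN (p : ℝ) (x : ι → ℝ) : ℝ := ∑ i, |x i| ^ p

/-- the multi-affine form (without the factor `r!`) -/
noncomputable def Q (r : ℕ) (w : Finset ι → ℝ) (x : ι → ℝ) : ℝ :=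
  ∑ S ∈ powersetCard r univ, w S * ∏ i ∈ S, x i

theorem Q_two (r : ℕ) (w : Finset ι → ℝ) (x : ι → ℝ) {a b : ι} (hab : a ≠ b) :
    ∃ F0 F1 F2 F3 : ℝ, ∀ α β : ℝ,
      Q r w (Function.update (Function.update x a α) b β) =
        F0 + α * F1 + β * F2 + α * β * F3 := by
  let c : Finset ι → ℝ := fun S => ∏ i ∈ (S \ {b}) \ {a}, x i
  refine ⟨∑ S ∈ powersetCard r univ, (if a ∉ S ∧ b ∉ S then w S * c S else 0),
    ∑ S ∈ powersetCard r univ, (if a ∈ S ∧ b ∉ S then w S * c S else 0),
    ∑ S ∈ powersetCard r univ, (if a ∉ S ∧ b ∈ S then w S * c S else 0),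
    ∑ S ∈ powersetCard r univ, (if a ∈ S ∧ b ∈ S then w S * c S else 0), fun α β => ?_⟩
  unfold Q
  rw [mul_sum, mul_sum, mul_sum, ← sum_add_distrib, ← sum_add_distrib, ← sum_add_distrib]
  refine sum_congr rfl fun S _ => ?_
  by_cases hb : b ∈ S
  · rw [prod_update_of_mem hb]
    by_cases ha : a ∈ S
    · have ha' : a ∈ S \ {b} := by simp [ha, hab]
      rw [prod_update_of_mem ha']
      simp only [ha, hb, not_true, and_self, and_true, and_false, if_true, if_false, c]
      ring
    · have ha' : a ∉ S \ {b} := by simp [ha]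
      rw [prod_update_of_notMem ha']
      have e : (S \ {b}) \ {a} = S \ {b} := by rw [sdiff_singleton_eq_erase a (S \ {b}), erase_eq_of_notMem ha']
      simp only [ha, hb, not_true, not_false_iff, and_self, and_true, and_false, if_true,
        if_false, c, e]
      ring
  · rw [prod_update_of_notMem hb]
    have e0 : S \ {b} = S := by rw [sdiff_singleton_eq_erase, erase_eq_of_notMem hb]
    by_cases ha : a ∈ S
    · rw [prod_update_of_mem ha]
      simp only [ha, hb, not_true, not_false_iff, and_self, and_true, and_false, if_true,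
        if_false, c, e0]
      ring
    · rw [prod_update_of_notMem ha]
      have e : S \ {a} = S := by rw [sdiff_singleton_eq_erase, erase_eq_of_notMem ha]
      simp only [ha, hb, not_false_iff, and_self, false_and, and_false, if_true,
        if_false, c, e, e0]
      ring

theorem NN_update (p : ℝ) (x : ι → ℝ) (a : ι) (α : ℝ) :
    NN p (Function.update x a α) = NN p x - |x a| ^ p + |α| ^ p := by
  unfold NN
  rw [← add_sum_erase univ _ (mem_univ a), ← add_sum_erase univ (fun i => |x i| ^ p) (mem_univ a)]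
  have h : ∑ i ∈ univ.erase a, |Function.update x a α i| ^ p = ∑ i ∈ univ.erase a, |x i| ^ p := by
    refine sum_congr rfl fun i hi => ?_
    rw [Function.update_of_ne (ne_of_mem_erase hi)]
  rw [h, Function.update_self]
  ring

theorem NN_update2 (p : ℝ) (x : ι → ℝ) {a b : ι} (hab : a ≠ b) (α β : ℝ) :
    NN p (Function.update (Function.update x a α) b β) =
      NN p x - |x a| ^ p - |x b| ^ p + |α| ^ p + |β| ^ p := by
  rw [NN_update, NN_update, Function.update_of_ne hab.symm]
  ring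

/-- averaged weights -/
noncomputable def avg (a b : ι) (g : ι → ℝ) (w : Finset ι → ℝ) (S : Finset ι) : ℝ :=
  (w S * ∏ i ∈ S, g i + w (S.map (Equiv.swap a b).toEmbedding) *
    ∏ i ∈ S.map (Equiv.swap a b).toEmbedding, g i) / 2

theorem Q_avg (r : ℕ) (a b : ι) (g : ι → ℝ) (w : Finset ι → ℝ) (x : ι → ℝ) :
    Q r (avg a b g w) x = (Q r w (fun i => g i * x i) +
      Q r w (fun i => g i * x (Equiv.swap a b i))) / 2 := by
  have h2 : Q r w (fun i => g i * x (Equiv.swap a b i)) =
      ∑ S ∈ powersetCard r univ, w (S.map (Equiv.swap a b).toEmbedding) *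
        ((∏ i ∈ S.map (Equiv.swap a b).toEmbedding, g i) * ∏ i ∈ S, x i) := by
    unfold Q
    refine (sum_equiv (Equiv.finsetCongr (Equiv.swap a b)) (fun S => ?_) (fun S _ => ?_)).symm
    · simp [mem_powersetCard]
    · rw [Equiv.finsetCongr_apply, prod_mul_distrib, prod_map
        S (Equiv.swap a b).toEmbedding (fun i => x (Equiv.swap a b i))]
      simp
  have h1 : Q r w (fun i => g i * x i) =
      ∑ S ∈ powersetCard r univ, w S * ((∏ i ∈ S, g i) * ∏ i ∈ S, x i) := by
    unfold Q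
    refine sum_congr rfl fun S _ => ?_
    rw [prod_mul_distrib]
  rw [h1, h2, ← sum_add_distrib, sum_div]
  unfold Q
  refine sum_congr rfl fun S _ => ?_
  unfold avg
  ring

theorem scale_eq {a b : ι} (hab : a ≠ b) {g : ι → ℝ} (hg : ∀ i, i ≠ a → i ≠ b → g i = 1)
    (x : ι → ℝ) : (fun i => g i * x i) =
      Function.update (Function.update x a (g a * x a)) b (g b * x b) := by
  funext i
  by_cases hb : i = b
  · subst hb; rw [Function.update_self]
  · rw [Function.update_of_ne hb]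
    by_cases ha : i = a
    · subst ha; rw [Function.update_self]
    · rw [Function.update_of_ne ha, hg i ha hb, one_mul]

theorem scale_swap_eq {a b : ι} (hab : a ≠ b) {g : ι → ℝ} (hg : ∀ i, i ≠ a → i ≠ b → g i = 1)
    (x : ι → ℝ) : (fun i => g i * x (Equiv.swap a b i)) =
      Function.update (Function.update x a (g a * x b)) b (g b * x a) := by
  funext i
  by_cases hb : i = b
  · subst hb; rw [Function.update_self, Equiv.swap_apply_right]
  · rw [Function.update_of_ne hb]
    by_cases ha : i = a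
    · subst ha; rw [Function.update_self, Equiv.swap_apply_left]
    · rw [Function.update_of_ne ha, hg i ha hb, one_mul, Equiv.swap_apply_of_ne_of_ne ha hb]

theorem avg_lower {p : ℝ} (hp : 1 ≤ p) (r : ℕ) {a b : ι} (hab : a ≠ b) {g : ι → ℝ}
    (hg : ∀ i, i ≠ a → i ≠ b → g i = 1) (hga : 0 ≤ g a) (hgb : 0 ≤ g b)
    (hgp : g a ^ p + g b ^ p = 2) (w : Finset ι → ℝ) (v : ι → ℝ) :
    ∃ v' : ι → ℝ, NN p v' ≤ NN p v ∧ Q r w v' ≤ Q r (avg a b g w) v := by
  obtain ⟨F0, F1, F2, F3, hF⟩ := Q_two r w v hab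
  obtain ⟨α, β, h1, h2⟩ := two_coord hp hga hgb hgp (v a) (v b) F0 F1 F2 F3
  refine ⟨Function.update (Function.update v a α) b β, ?_, ?_⟩
  · rw [NN_update2 p v hab]; linarith
  · rw [Q_avg, scale_eq hab hg, scale_swap_eq hab hg, hF, hF, hF]
    exact h2

theorem avg_value (r : ℕ) {a b : ι} (hab : a ≠ b) {g : ι → ℝ}
    (hg : ∀ i, i ≠ a → i ≠ b → g i = 1) (w : Finset ι → ℝ) (u : ι → ℝ) {t : ℝ}
    (ha : g a * t = u a) (hb : g b * t = u b) :
    Q r (avg a b g w) (Function.update (Function.update u a t) b t) = Q r w u := by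
  rw [Q_avg, scale_eq hab hg, scale_swap_eq hab hg]
  have e : ∀ x y : ℝ, x = u a → y = u b → Function.update (Function.update
      (Function.update (Function.update u a t) b t) a x) b y = u := by
    intro x y hx hy
    funext i
    by_cases hib : i = b
    · subst hib; rw [Function.update_self, hy]
    · rw [Function.update_of_ne hib]
      by_cases hia : i = a
      · subst hia; rw [Function.update_self, hx]
      · rw [Function.update_of_ne hia, Function.update_of_ne hib, Function.update_of_ne hia]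
  rw [e _ _ ?_ ?_, e _ _ ?_ ?_]
  · ring
  · rw [Function.update_self, ha]
  · rw [Function.update_of_ne hab, Function.update_self, hb]
  · rw [Function.update_of_ne hab, Function.update_self, ha]
  · rw [Function.update_self, hb]

theorem mean_le {p : ℝ} (hp : 1 ≤ p) {x y : ℝ} (hx : 0 ≤ x) (hy : 0 ≤ y) (h : x ^ p + y ^ p = 2) :
    x + y ≤ 2 := by
  have h1 := (convexOn_rpow hp).2 (Set.mem_Ici.2 hx) (Set.mem_Ici.2 hy)
    (by norm_num : (0 : ℝ) ≤ 1 / 2) (by norm_num : (0 : ℝ) ≤ 1 / 2) (by norm_num)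
  simp only [smul_eq_mul] at h1
  have h2 : (1 / 2 * x + 1 / 2 * y) ^ p ≤ 1 := by linarith
  by_contra hcon
  push Not at hcon
  have h3 : (1 : ℝ) < (1 / 2 * x + 1 / 2 * y) ^ p :=
    Real.one_lt_rpow (by linarith) (by linarith)
  linarith

theorem avg_abs_le {p : ℝ} (hp : 1 ≤ p) {a b : ι} (hab : a ≠ b) {g : ι → ℝ}
    (hg : ∀ i, i ≠ a → i ≠ b → g i = 1) (hga : 0 ≤ g a) (hgb : 0 ≤ g b)
    (hgp : g a ^ p + g b ^ p = 2) {w : Finset ι → ℝ} (hw : ∀ S, |w S| ≤ 1) (S : Finset ι) :
    |avg a b g w S| ≤ 1 := by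
  have hsum := mean_le hp hga hgb hgp
  have hprod : g a * g b ≤ 1 := by nlinarith [sq_nonneg (g a - g b)]
  have hG : ∀ T : Finset ι, ∏ i ∈ T, g i =
      (if a ∈ T then g a else 1) * (if b ∈ T then g b else 1) := by
    intro T
    have h1 : ∏ i ∈ T, g i = ∏ i ∈ T, ((if i = a then g a else 1) * (if i = b then g b else 1)) := by
      refine prod_congr rfl fun i _ => ?_
      by_cases ha : i = a
      · subst ha; simp [hab]
      · by_cases hb : i = b
        · subst hb; simp [ha]
        · simp [ha, hb, hg i ha hb]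
    rw [h1, prod_mul_distrib, prod_ite_eq', prod_ite_eq']
  have hma : a ∈ S.map (Equiv.swap a b).toEmbedding ↔ b ∈ S := by
    rw [mem_map_equiv]; simp
  have hmb : b ∈ S.map (Equiv.swap a b).toEmbedding ↔ a ∈ S := by
    rw [mem_map_equiv]; simp
  have hG0 : ∀ T : Finset ι, 0 ≤ ∏ i ∈ T, g i := by
    intro T
    rw [hG]
    split_ifs <;> positivity
  unfold avg
  rw [abs_div, abs_of_pos (by norm_num : (0 : ℝ) < 2), div_le_one (by norm_num)]
  refine (abs_add_le _ _).trans ?_
  rw [abs_mul, abs_mul, abs_of_nonneg (hG0 _), abs_of_nonneg (hG0 _)]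
  have h1 : |w S| * ∏ i ∈ S, g i ≤ ∏ i ∈ S, g i := mul_le_of_le_one_left (hG0 _) (hw _)
  have h2 : |w (S.map (Equiv.swap a b).toEmbedding)| *
      ∏ i ∈ S.map (Equiv.swap a b).toEmbedding, g i ≤
      ∏ i ∈ S.map (Equiv.swap a b).toEmbedding, g i := mul_le_of_le_one_left (hG0 _) (hw _)
  refine (add_le_add h1 h2).trans ?_
  rw [hG, hG]
  simp only [hma, hmb]
  split_ifs <;> nlinarith

/-! ### the uniform vector -/

theorem perm_sum_eq {S S' : Finset ι} (h : S.card = S'.card) (v : ι → ℝ) :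
    ∑ σ : Equiv.Perm ι, ∏ i ∈ S, v (σ i) = ∑ σ : Equiv.Perm ι, ∏ i ∈ S', v (σ i) := by
  let e : {x // x ∈ S} ≃ {x // x ∈ S'} := Finset.equivOfCardEq h
  let π : Equiv.Perm ι := e.extendSubtype
  have hπ : ∀ i, i ∈ S ↔ π i ∈ S' := by
    intro i
    constructor
    · intro hi; exact Equiv.extendSubtype_mem e i hi
    · intro hi
      by_contra hni
      exact Equiv.extendSubtype_not_mem e i hni hi
  have h1 : ∀ σ : Equiv.Perm ι, ∏ i ∈ S', v (σ i) = ∏ i ∈ S, v ((σ * π) i) := by
    intro σ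
    refine (prod_equiv π (fun i => hπ i) (fun i _ => ?_)).symm
    rfl
  simp_rw [h1]
  exact (Fintype.sum_equiv (Equiv.mulRight π) _ _ (fun σ => rfl)).symm

theorem Q_one_perm (r : ℕ) (v : ι → ℝ) (σ : Equiv.Perm ι) :
    Q r (fun _ => 1) (fun i => v (σ i)) = Q r (fun _ => 1) v := by
  unfold Q
  refine sum_equiv (Equiv.finsetCongr σ) (fun S => ?_) (fun S _ => ?_)
  · simp [mem_powersetCard]
  · rw [Equiv.finsetCongr_apply, prod_map]
    rfl

theorem perm_avg (r : ℕ) (w : Finset ι → ℝ) (v : ι → ℝ) :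
    (powersetCard r (univ : Finset ι)).card * ∑ σ : Equiv.Perm ι, Q r w (fun i => v (σ i)) =
      (∑ S ∈ powersetCard r univ, w S) *
        (Fintype.card (Equiv.Perm ι) * Q r (fun _ => 1) v) := by
  rcases (powersetCard r (univ : Finset ι)).eq_empty_or_nonempty with h0 | ⟨S0, hS0⟩
  · unfold Q; rw [h0]; simp
  · set τ := ∑ σ : Equiv.Perm ι, ∏ i ∈ S0, v (σ i) with hτ
    have hc : ∀ S ∈ powersetCard r (univ : Finset ι),
        ∑ σ : Equiv.Perm ι, ∏ i ∈ S, v (σ i) = τ := by
      intro S hS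
      exact perm_sum_eq (by rw [(mem_powersetCard.1 hS).2, (mem_powersetCard.1 hS0).2]) v
    have h1 : ∀ w : Finset ι → ℝ, ∑ σ : Equiv.Perm ι, Q r w (fun i => v (σ i)) =
        (∑ S ∈ powersetCard r univ, w S) * τ := by
      intro w
      unfold Q
      rw [sum_comm, sum_mul]
      refine sum_congr rfl fun S hS => ?_
      rw [← mul_sum, hc S hS]
    have h2 := h1 (fun _ => 1)
    have h3 : ∑ σ : Equiv.Perm ι, Q r (fun _ => 1) (fun i => v (σ i)) =
        Fintype.card (Equiv.Perm ι) * Q r (fun _ => 1) v := by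
      rw [sum_congr rfl fun σ _ => Q_one_perm r v σ, sum_const, card_univ, nsmul_eq_mul]
    rw [h1 w, ← h3, h2]
    simp only [sum_const, nsmul_eq_mul, mul_one]
    ring

theorem Q_const (r : ℕ) (w : Finset ι → ℝ) (t : ℝ) :
    Q r w (fun _ => t) = (∑ S ∈ powersetCard r univ, w S) * t ^ r := by
  unfold Q
  rw [sum_mul]
  refine sum_congr rfl fun S hS => ?_
  rw [prod_const, (mem_powersetCard.1 hS).2]

theorem NN_perm (p : ℝ) (v : ι → ℝ) (σ : Equiv.Perm ι) : NN p (fun i => v (σ i)) = NN p v := by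
  unfold NN
  exact Fintype.sum_equiv σ _ _ (fun i => rfl)

theorem NN_zero {p : ℝ} (hp : 1 ≤ p) : NN p (fun _ : ι => (0 : ℝ)) = 0 := by
  unfold NN
  simp [Real.zero_rpow (by linarith : p ≠ 0)]

theorem Q_zero {r : ℕ} (hr : 1 ≤ r) (w : Finset ι → ℝ) : Q r w (fun _ => 0) = 0 := by
  rw [Q_const, zero_pow (by omega), mul_zero]

theorem uniform_case {p : ℝ} (hp : 1 ≤ p) {r : ℕ} (hr : 1 ≤ r) {c : ℝ} (hc : 0 ≤ c) {t : ℝ}
    (ht : 0 ≤ t) {v : ι → ℝ} (hv : NN p v ≤ 1)
    (hcv : Q r (fun _ => 1) v ≤ -c * Q r (fun _ => 1) (fun _ : ι => t)) (w : Finset ι → ℝ) :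
    ∃ v' : ι → ℝ, NN p v' ≤ 1 ∧ Q r w v' ≤ -c * Q r w (fun _ => t) := by
  rcases le_or_gt (∑ S ∈ powersetCard r (univ : Finset ι), w S) 0 with h | h
  · refine ⟨fun _ => 0, by rw [NN_zero hp]; norm_num, ?_⟩
    rw [Q_zero hr, Q_const]
    have : (∑ S ∈ powersetCard r (univ : Finset ι), w S) * t ^ r ≤ 0 :=
      mul_nonpos_of_nonpos_of_nonneg h (by positivity)
    nlinarith
  · have hne : (powersetCard r (univ : Finset ι)).Nonempty := by
      rw [nonempty_iff_ne_empty]
      intro he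
      rw [he] at h
      simp at h
    have hC : (0 : ℝ) < (powersetCard r (univ : Finset ι)).card := by
      exact_mod_cast hne.card_pos
    have hP : (0 : ℝ) < Fintype.card (Equiv.Perm ι) := by
      exact_mod_cast Fintype.card_pos
    have h1 := perm_avg r w v
    set W := ∑ S ∈ powersetCard r (univ : Finset ι), w S with hW
    have h2 : Q r (fun _ => 1) (fun _ : ι => t) =
        (powersetCard r (univ : Finset ι)).card * t ^ r := by
      rw [Q_const]; simp
    rw [h2] at hcv
    have h3 : ∑ σ : Equiv.Perm ι, Q r w (fun i => v (σ i)) ≤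
        ∑ _σ : Equiv.Perm ι, (-c * (W * t ^ r)) := by
      rw [sum_const, card_univ, nsmul_eq_mul]
      have h4 : (powersetCard r (univ : Finset ι)).card *
          ∑ σ : Equiv.Perm ι, Q r w (fun i => v (σ i)) ≤
          (powersetCard r (univ : Finset ι)).card *
            (Fintype.card (Equiv.Perm ι) * (-c * (W * t ^ r))) := by
        rw [h1]
        calc W * (Fintype.card (Equiv.Perm ι) * Q r (fun _ => 1) v)
            ≤ W * (Fintype.card (Equiv.Perm ι) *
              (-c * ((powersetCard r (univ : Finset ι)).card * t ^ r))) := by gcongr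
          _ = _ := by ring
      exact le_of_mul_le_mul_left h4 hC
    obtain ⟨σ, -, hσ⟩ := exists_le_of_sum_le (univ_nonempty) h3
    refine ⟨fun i => v (σ i), by rw [NN_perm]; exact hv, ?_⟩
    rw [Q_const]
    exact hσ

/-! ### compactness -/

theorem continuous_NN {p : ℝ} (hp : 1 ≤ p) : Continuous (NN p : (ι → ℝ) → ℝ) := by
  unfold NN
  refine continuous_finsetSum _ fun i _ => ?_
  exact ((continuous_apply i).abs).rpow_const fun x => Or.inr (by linarith)

theorem continuous_Q (r : ℕ) :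
    Continuous (fun z : (Finset ι → ℝ) × (ι → ℝ) => Q r z.1 z.2) := by
  unfold Q
  refine continuous_finsetSum _ fun S _ => ?_
  refine Continuous.mul ((continuous_apply S).comp continuous_fst) ?_
  exact continuous_finsetProd _ fun i _ => (continuous_apply i).comp continuous_snd

theorem abs_le_of_NN {p : ℝ} (hp : 1 ≤ p) {x : ι → ℝ} (hx : NN p x ≤ 1) (i : ι) : |x i| ≤ 1 := by
  have h1 : |x i| ^ p ≤ 1 := by
    refine le_trans ?_ hx
    exact single_le_sum (f := fun i => |x i| ^ p) (fun i _ => by positivity) (mem_univ i)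
  by_contra hcon
  push Not at hcon
  have := Real.one_lt_rpow hcon (by linarith : 0 < p)
  linarith

theorem isCompact_ball {p : ℝ} (hp : 1 ≤ p) : IsCompact {v : ι → ℝ | NN p v ≤ 1} := by
  have h1 : IsCompact (Set.pi Set.univ (fun _ : ι => Set.Icc (-1 : ℝ) 1)) :=
    isCompact_univ_pi fun _ => isCompact_Icc
  refine h1.of_isClosed_subset (isClosed_le (continuous_NN hp) continuous_const) ?_
  intro v hv i _
  exact abs_le.1 (abs_le_of_NN hp hv i)

theorem main_k {p : ℝ} (hp : 1 ≤ p) {r : ℕ} (hr : 1 ≤ r) {c : ℝ} (hc : 0 ≤ c) {v0 : ι → ℝ}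
    (hv0 : NN p v0 ≤ 1)
    (hcv : ∀ t : ℝ, 0 ≤ t → NN p (fun _ : ι => t) = 1 →
      Q r (fun _ => 1) v0 ≤ -c * Q r (fun _ => 1) (fun _ : ι => t))
    (w : Finset ι → ℝ) (u : ι → ℝ) (hu0 : ∀ i, 0 ≤ u i) (hu : NN p u = 1) :
    ∃ v : ι → ℝ, NN p v ≤ 1 ∧ Q r w v ≤ -c * Q r w u := by
  by_contra hcon
  push Not at hcon
  have hp0 : (0 : ℝ) < p := by linarith
  set Ball : Set (ι → ℝ) := {v : ι → ℝ | NN p v ≤ 1} with hBall
  have hBc : IsCompact Ball := isCompact_ball hp
  let μ : (Finset ι → ℝ) → ℝ := fun w => sInf ((fun v => Q r w v) '' Ball)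
  have hμc : Continuous μ := hBc.continuous_sInf (f := fun w v => Q r w v) (continuous_Q r)
  have hcw : ∀ w : Finset ι → ℝ, Continuous (fun v => Q r w v) := fun w =>
    (continuous_Q r).comp (continuous_const.prodMk continuous_id)
  have hμle : ∀ w, ∀ v ∈ Ball, μ w ≤ Q r w v := fun w v hv =>
    csInf_le (hBc.image (hcw w)).bddBelow ⟨v, hv, rfl⟩
  have hBne : Ball.Nonempty := ⟨fun _ => 0, by
    show NN p (fun _ => (0 : ℝ)) ≤ 1
    rw [NN_zero hp]; norm_num⟩
  have hμmem : ∀ w, ∃ v ∈ Ball, Q r w v = μ w := by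
    intro w
    obtain ⟨v, hv, hv'⟩ := (hBc.image (hcw w)).sInf_mem (hBne.image _)
    exact ⟨v, hv, hv'⟩
  -- scaling the weights
  have hQs : ∀ (s : ℝ) (w : Finset ι → ℝ) (x : ι → ℝ), Q r (fun S => s * w S) x = s * Q r w x := by
    intro s w x
    unfold Q
    rw [mul_sum]
    exact sum_congr rfl fun S _ => by ring
  set K := 1 + ∑ S : Finset ι, |w S| with hK
  have hK0 : 0 < K := by
    have : 0 ≤ ∑ S : Finset ι, |w S| := sum_nonneg fun S _ => abs_nonneg _
    linarith
  set w1 : Finset ι → ℝ := fun S => K⁻¹ * w S with hw1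
  have hw1b : ∀ S, |w1 S| ≤ 1 := by
    intro S
    rw [hw1]
    simp only
    rw [abs_mul, abs_of_pos (inv_pos.2 hK0), inv_mul_le_iff₀ hK0, mul_one]
    have : |w S| ≤ ∑ S : Finset ι, |w S| :=
      single_le_sum (f := fun S => |w S|) (fun S _ => abs_nonneg _) (mem_univ S)
    linarith
  let Ψ : (Finset ι → ℝ) × (ι → ℝ) → ℝ := fun z => μ z.1 + c * Q r z.1 z.2
  have hΨc : Continuous Ψ := (hμc.comp continuous_fst).add ((continuous_Q r).const_mul c)
  have hpos : 0 < Ψ (w1, u) := by
    obtain ⟨v, hv, hv'⟩ := hμmem w1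
    show 0 < μ w1 + c * Q r w1 u
    rw [← hv', hw1, hQs, hQs]
    have h1 := hcon v hv
    have h2 : 0 < K⁻¹ := inv_pos.2 hK0
    have h3 : K⁻¹ * Q r w v + c * (K⁻¹ * Q r w u) = K⁻¹ * (Q r w v - -c * Q r w u) := by ring
    rw [h3]
    exact mul_pos h2 (by linarith)
  set ε := Ψ (w1, u) with hε
  let X : Set ((Finset ι → ℝ) × (ι → ℝ)) :=
    {z | (∀ S, |z.1 S| ≤ 1) ∧ (∀ i, 0 ≤ z.2 i) ∧ NN p z.2 = 1 ∧ ε ≤ Ψ z}
  have hXc : IsCompact X := by
    have h1 : IsCompact ((Set.pi Set.univ (fun _ : Finset ι => Set.Icc (-1 : ℝ) 1)) ×ˢ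
        (Set.pi Set.univ (fun _ : ι => Set.Icc (-1 : ℝ) 1))) :=
      (isCompact_univ_pi fun _ => isCompact_Icc).prod (isCompact_univ_pi fun _ => isCompact_Icc)
    refine h1.of_isClosed_subset ?_ ?_
    · have c1 : IsClosed {z : (Finset ι → ℝ) × (ι → ℝ) | ∀ S, |z.1 S| ≤ 1} := by
        rw [Set.ofPred_forall]
        exact isClosed_iInter fun S =>
          isClosed_le (((continuous_apply S).comp continuous_fst).abs) continuous_const
      have c2 : IsClosed {z : (Finset ι → ℝ) × (ι → ℝ) | ∀ i, 0 ≤ z.2 i} := by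
        rw [Set.ofPred_forall]
        exact isClosed_iInter fun i =>
          isClosed_le continuous_const ((continuous_apply i).comp continuous_snd)
      have c3 : IsClosed {z : (Finset ι → ℝ) × (ι → ℝ) | NN p z.2 = 1} :=
        isClosed_eq ((continuous_NN hp).comp continuous_snd) continuous_const
      have c4 : IsClosed {z : (Finset ι → ℝ) × (ι → ℝ) | ε ≤ Ψ z} :=
        isClosed_le continuous_const hΨc
      exact c1.inter (c2.inter (c3.inter c4))
    · rintro ⟨w2, u2⟩ ⟨h1, -, h3, -⟩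
      exact ⟨fun S _ => abs_le.1 (h1 S), fun i _ => abs_le.1 (abs_le_of_NN hp h3.le i)⟩
  let E : (Finset ι → ℝ) × (ι → ℝ) → ℝ := fun z => ∑ i, (|z.2 i| ^ p) ^ 2
  have hEc : Continuous E := by
    refine continuous_finsetSum _ fun i _ => ?_
    exact ((((continuous_apply i).comp continuous_snd).abs).rpow_const
      fun x => Or.inr hp0.le).pow 2
  obtain ⟨⟨w2, u2⟩, hz, hmin⟩ := hXc.exists_isMinOn ⟨(w1, u), hw1b, hu0, hu, le_rfl⟩
    hEc.continuousOn
  obtain ⟨hw2, hu20, hu2, hΨ2⟩ := hz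
  simp only at hw2 hu20 hu2
  by_cases hunif : ∀ a b, u2 a = u2 b
  · -- uniform vector
    rcases isEmpty_or_nonempty ι with hι | ⟨⟨i0⟩⟩
    · have : NN p u2 = 0 := by unfold NN; simp
      linarith
    · have he : u2 = fun _ => u2 i0 := by funext i; exact hunif i i0
      have hu2' : NN p (fun _ : ι => u2 i0) = 1 := by rw [← he]; exact hu2
      obtain ⟨v', hv', hv''⟩ := uniform_case hp hr hc (hu20 i0) hv0 (hcv _ (hu20 i0) hu2') w2
      rw [← he] at hv''
      have h1 := hμle w2 v' hv'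
      have h2 : Ψ (w2, u2) = μ w2 + c * Q r w2 u2 := rfl
      rw [h2] at hΨ2
      linarith
  · push Not at hunif
    obtain ⟨a, b, hne⟩ := hunif
    have hab : a ≠ b := fun h => hne (by rw [h])
    have hA0 : 0 ≤ u2 a ^ p := Real.rpow_nonneg (hu20 a) _
    have hB0 : 0 ≤ u2 b ^ p := Real.rpow_nonneg (hu20 b) _
    have hABne : u2 a ^ p ≠ u2 b ^ p := by
      intro h
      exact hne ((Real.rpow_left_inj (hu20 a) (hu20 b) hp0.ne').1 h)
    have hsum : 0 < (u2 a ^ p + u2 b ^ p) / 2 := by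
      rcases hA0.eq_or_lt with h | h
      · have : 0 < u2 b ^ p := lt_of_le_of_ne hB0 (by rw [h]; exact hABne)
        linarith
      · linarith
    set t := ((u2 a ^ p + u2 b ^ p) / 2) ^ (1 / p) with ht
    have ht0 : 0 < t := Real.rpow_pos_of_pos hsum _
    have htp : t ^ p = (u2 a ^ p + u2 b ^ p) / 2 := by
      rw [ht, ← Real.rpow_mul hsum.le, one_div_mul_cancel hp0.ne', Real.rpow_one]
    let g : ι → ℝ := fun i => if i = a then u2 a / t else if i = b then u2 b / t else 1
    have hga : g a = u2 a / t := by simp [g]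
    have hgb : g b = u2 b / t := by simp [g, hab.symm]
    have hg1 : ∀ i, i ≠ a → i ≠ b → g i = 1 := by
      intro i h1 h2; simp [g, h1, h2]
    have hga0 : 0 ≤ g a := by rw [hga]; exact div_nonneg (hu20 a) ht0.le
    have hgb0 : 0 ≤ g b := by rw [hgb]; exact div_nonneg (hu20 b) ht0.le
    have hgp : g a ^ p + g b ^ p = 2 := by
      rw [hga, hgb, Real.div_rpow (hu20 a) ht0.le, Real.div_rpow (hu20 b) ht0.le, htp,
        ← add_div, div_eq_iff hsum.ne']
      ring
    have hvala : g a * t = u2 a := by rw [hga]; field_simp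
    have hvalb : g b * t = u2 b := by rw [hgb]; field_simp
    set w3 := avg a b g w2 with hw3
    set u3 := Function.update (Function.update u2 a t) b t with hu3
    have hQ3 : Q r w3 u3 = Q r w2 u2 := avg_value r hab hg1 w2 u2 hvala hvalb
    have hμ3 : μ w2 ≤ μ w3 := by
      obtain ⟨v, hv, hv'⟩ := hμmem w3
      obtain ⟨v', h1, h2⟩ := avg_lower hp r hab hg1 hga0 hgb0 hgp w2 v
      rw [← hv']
      exact (hμle w2 v' (h1.trans hv)).trans h2
    have hmem : (w3, u3) ∈ X := by
      refine ⟨fun S => avg_abs_le hp hab hg1 hga0 hgb0 hgp hw2 S, ?_, ?_, ?_⟩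
      · intro i
        show 0 ≤ u3 i
        rw [hu3]
        by_cases hib : i = b
        · subst hib; rw [Function.update_self]; exact ht0.le
        · rw [Function.update_of_ne hib]
          by_cases hia : i = a
          · subst hia; rw [Function.update_self]; exact ht0.le
          · rw [Function.update_of_ne hia]; exact hu20 i
      · show NN p u3 = 1
        rw [hu3, NN_update2 p u2 hab, hu2, abs_of_pos ht0, abs_of_nonneg (hu20 a),
          abs_of_nonneg (hu20 b), htp]
        ring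
      · show ε ≤ μ w3 + c * Q r w3 u3
        rw [hQ3]
        have h2 : Ψ (w2, u2) = μ w2 + c * Q r w2 u2 := rfl
        rw [h2] at hΨ2
        linarith
    have hE := hmin hmem
    have hE' : E (w2, u2) ≤ E (w3, u3) := hE
    have hEdiff : E (w3, u3) = E (w2, u2) - (u2 a ^ p) ^ 2 - (u2 b ^ p) ^ 2 + (t ^ p) ^ 2
        + (t ^ p) ^ 2 := by
      have h1 : ∀ x : ι → ℝ, E (w3, x) = ∑ i, (|x i| ^ p) ^ 2 := fun _ => rfl
      have h2 : E (w2, u2) = ∑ i, (|u2 i| ^ p) ^ 2 := rfl
      have hupd : ∀ (x : ι → ℝ) (j : ι) (y : ℝ), ∑ i, (|Function.update x j y i| ^ p) ^ 2 =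
          ∑ i, (|x i| ^ p) ^ 2 - (|x j| ^ p) ^ 2 + (|y| ^ p) ^ 2 := by
        intro x j y
        rw [← add_sum_erase univ _ (mem_univ j),
          ← add_sum_erase univ (fun i => (|x i| ^ p) ^ 2) (mem_univ j)]
        have h : ∑ i ∈ univ.erase j, (|Function.update x j y i| ^ p) ^ 2 =
            ∑ i ∈ univ.erase j, (|x i| ^ p) ^ 2 := by
          refine sum_congr rfl fun i hi => ?_
          rw [Function.update_of_ne (ne_of_mem_erase hi)]
        rw [h, Function.update_self]
        ring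
      rw [h1, h2, hu3, hupd, hupd, Function.update_of_ne hab.symm, abs_of_pos ht0,
        abs_of_nonneg (hu20 a), abs_of_nonneg (hu20 b)]
      ring
    rw [hEdiff, htp] at hE'
    have h3 : 0 < (u2 a ^ p - u2 b ^ p) ^ 2 := by
      have := sub_ne_zero.2 hABne
      positivity
    nlinarith

end Pool.Agent.H31.Hoffman
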