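import Mathlib

/-!
# A two-point inequality for `|a+b|^p + |a-b|^p`

`2 h(mM, ζ) ≤ h(M, D) h(m, d)` where `ζ² = m²D² + (M²-D²)d²`, `|D| ≤ M`, `p ≥ 1`.
-/

set_option autoImplicit false

namespace Pool.Agent.H31.Hoffman

open Real

/-- `|a+b|^p + |a-b|^p` -/
noncomputable def hh (p a b : ℝ) : ℝ := |a + b| ^ p + |a - b| ^ p

theorem hh_comm (p a b : ℝ) : hh p a b = hh p b a := by
  unfold hh
  rw [add_comm a b, abs_sub_comm a b]

theorem hh_neg_right (p a b : ℝ) : hh p a (-b) = hh p a b := by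
  unfold hh
  rw [sub_neg_eq_add, ← sub_eq_add_neg, add_comm]

theorem hh_neg_left (p a b : ℝ) : hh p (-a) b = hh p a b := by
  rw [hh_comm, hh_neg_right, hh_comm]

theorem hh_abs (p a b : ℝ) : hh p |a| |b| = hh p a b := by
  rcases abs_choice a with ha | ha <;> rcases abs_choice b with hb | hb <;>
    rw [ha, hb] <;> simp only [hh_neg_right, hh_neg_left]

theorem sinh_cosh_aux {p : ℝ} (hp : 1 ≤ p) {x : ℝ} (hx : 0 ≤ x) :
    0 ≤ p * cosh (p * x) * sinh x - sinh (p * x) * cosh x := by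
  let f : ℝ → ℝ := fun x => p * cosh (p * x) * sinh x - sinh (p * x) * cosh x
  have hd : ∀ y, HasDerivAt f ((p ^ 2 - 1) * (sinh (p * y) * sinh y)) y := by
    intro y
    have h0 : HasDerivAt (fun y : ℝ => p * y) p y := by
      simpa using (hasDerivAt_id y).const_mul p
    have h1 : HasDerivAt (fun y => cosh (p * y)) (sinh (p * y) * p) y :=
      (Real.hasDerivAt_cosh (p * y)).comp y h0
    have h2 : HasDerivAt (fun y => sinh (p * y)) (cosh (p * y) * p) y :=
      (Real.hasDerivAt_sinh (p * y)).comp y h0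
    have h3 : HasDerivAt f _ y := ((h1.const_mul p).mul (Real.hasDerivAt_sinh y)).sub
      (h2.mul (Real.hasDerivAt_cosh y))
    exact h3.congr_deriv (by ring)
  have hmono : MonotoneOn f (Set.Ici 0) := by
    apply monotoneOn_of_deriv_nonneg (convex_Ici 0)
    · exact fun y _ => (hd y).continuousAt.continuousWithinAt
    · exact fun y _ => (hd y).differentiableAt.differentiableWithinAt
    · intro y hy
      rw [interior_Ici, Set.mem_Ioi] at hy
      rw [(hd y).deriv]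
      have h1 : 0 ≤ sinh y := Real.sinh_nonneg_iff.2 hy.le
      have h2 : 0 ≤ sinh (p * y) := Real.sinh_nonneg_iff.2 (by positivity)
      have h3 : 0 ≤ p ^ 2 - 1 := by nlinarith
      positivity
  have h := hmono (Set.mem_Ici.2 le_rfl) (Set.mem_Ici.2 hx) hx
  simpa [f] using h

theorem sinh_ratio {p : ℝ} (hp : 1 ≤ p) {y z : ℝ} (hy : 0 < y) (hyz : y ≤ z) :
    sinh (p * y) / sinh y ≤ sinh (p * z) / sinh z := by
  let f : ℝ → ℝ := fun x => sinh (p * x) / sinh x
  have hd : ∀ y, 0 < y → HasDerivAt f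
      ((p * cosh (p * y) * sinh y - sinh (p * y) * cosh y) / sinh y ^ 2) y := by
    intro y hy
    have hs : sinh y ≠ 0 := (Real.sinh_pos_iff.2 hy).ne'
    have h0 : HasDerivAt (fun y : ℝ => p * y) p y := by
      simpa using (hasDerivAt_id y).const_mul p
    have h2 : HasDerivAt (fun y => sinh (p * y)) (cosh (p * y) * p) y :=
      (Real.hasDerivAt_sinh (p * y)).comp y h0
    have h3 : HasDerivAt f _ y := h2.div (Real.hasDerivAt_sinh y) hs
    exact h3.congr_deriv (by ring)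
  have hmono : MonotoneOn f (Set.Ioi 0) := by
    apply monotoneOn_of_deriv_nonneg (convex_Ioi 0)
    · exact fun y hy => (hd y hy).continuousAt.continuousWithinAt
    · intro y hy
      rw [interior_Ioi] at hy
      exact (hd y hy).differentiableAt.differentiableWithinAt
    · intro y hy
      rw [interior_Ioi] at hy
      rw [(hd y hy).deriv]
      exact div_nonneg (sinh_cosh_aux hp (le_of_lt hy)) (sq_nonneg _)
  exact hmono (Set.mem_Ioi.2 hy) (Set.mem_Ioi.2 (hy.trans_le hyz)) hyz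

theorem cosh_tangent {p : ℝ} (hp : 1 ≤ p) {z y : ℝ} (hz : 0 < z) (hy : 0 ≤ y) :
    cosh (p * z) + p * (sinh (p * z) / sinh z) * (cosh y - cosh z) ≤ cosh (p * y) := by
  set K := p * (sinh (p * z) / sinh z) with hK
  let g : ℝ → ℝ := fun x => cosh (p * x) - K * cosh x
  have hd : ∀ x, HasDerivAt g (p * sinh (p * x) - K * sinh x) x := by
    intro x
    have h0 : HasDerivAt (fun y : ℝ => p * y) p x := by
      simpa using (hasDerivAt_id x).const_mul p
    have h1 : HasDerivAt (fun y => cosh (p * y)) (sinh (p * x) * p) x :=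
      (Real.hasDerivAt_cosh (p * x)).comp x h0
    have h3 : HasDerivAt g _ x := h1.sub ((Real.hasDerivAt_cosh x).const_mul K)
    exact h3.congr_deriv (by ring)
  have key : g z ≤ g y := by
    rcases le_total z y with h | h
    · have hmono : MonotoneOn g (Set.Ici z) := by
        apply monotoneOn_of_deriv_nonneg (convex_Ici z)
        · exact fun y _ => (hd y).continuousAt.continuousWithinAt
        · exact fun y _ => (hd y).differentiableAt.differentiableWithinAt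
        · intro x hx
          rw [interior_Ici, Set.mem_Ioi] at hx
          rw [(hd x).deriv]
          have hx0 : 0 < x := hz.trans hx
          have h1 := sinh_ratio hp hz hx.le
          have h2 : 0 < sinh x := Real.sinh_pos_iff.2 hx0
          rw [le_div_iff₀ h2] at h1
          have h3 : K * sinh x = p * (sinh (p * z) / sinh z * sinh x) := by rw [hK]; ring
          rw [h3]
          nlinarith
      exact hmono (Set.mem_Ici.2 le_rfl) (Set.mem_Ici.2 h) h
    · have hanti : AntitoneOn g (Set.Icc 0 z) := by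
        apply antitoneOn_of_deriv_nonpos (convex_Icc 0 z)
        · exact fun y _ => (hd y).continuousAt.continuousWithinAt
        · exact fun y _ => (hd y).differentiableAt.differentiableWithinAt
        · intro x hx
          rw [interior_Icc, Set.mem_Ioo] at hx
          rw [(hd x).deriv]
          have h1 := sinh_ratio hp hx.1 hx.2.le
          have h2 : 0 < sinh x := Real.sinh_pos_iff.2 hx.1
          rw [div_le_iff₀ h2] at h1
          have h3 : K * sinh x = p * (sinh (p * z) / sinh z * sinh x) := by rw [hK]; ring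
          rw [h3]
          nlinarith
      exact hanti (Set.mem_Icc.2 ⟨hy, h⟩) (Set.mem_Icc.2 ⟨hz.le, le_rfl⟩) h
  simp only [g] at key
  linarith

/-- if `cosh z ≤ cosh s cosh t` then `cosh (pz) ≤ cosh (ps) cosh (pt)` -/
theorem cosh_key {p : ℝ} (hp : 1 ≤ p) {s t z : ℝ} (hz : 0 ≤ z)
    (h : cosh z ≤ cosh s * cosh t) : cosh (p * z) ≤ cosh (p * s) * cosh (p * t) := by
  rcases hz.eq_or_lt with h0 | hz
  · rw [← h0, mul_zero, Real.cosh_zero]
    nlinarith [Real.one_le_cosh (p * s), Real.one_le_cosh (p * t)]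
  · have h1 := cosh_tangent hp hz (abs_nonneg (s + t))
    have h2 := cosh_tangent hp hz (abs_nonneg (s - t))
    have hab : ∀ x : ℝ, cosh (p * |x|) = cosh (p * x) := by
      intro x
      rcases abs_choice x with h | h <;> rw [h]
      rw [mul_neg, Real.cosh_neg]
    rw [Real.cosh_abs, hab] at h1 h2
    have h3 : cosh (s + t) + cosh (s - t) = 2 * (cosh s * cosh t) := by
      rw [Real.cosh_add, Real.cosh_sub]; ring
    have h4 : cosh (p * (s + t)) + cosh (p * (s - t)) = 2 * (cosh (p * s) * cosh (p * t)) := by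
      rw [mul_add, mul_sub, Real.cosh_add, Real.cosh_sub]; ring
    have h5 : 0 ≤ p * (sinh (p * z) / sinh z) := by
      have e1 : 0 ≤ sinh (p * z) := Real.sinh_nonneg_iff.2 (by positivity)
      have e2 : 0 ≤ sinh z := Real.sinh_nonneg_iff.2 hz.le
      positivity
    nlinarith [mul_nonneg h5 (sub_nonneg.2 h)]

/-- hyperbolic parametrisation -/
theorem hh_hyp (p : ℝ) {a b : ℝ} (hab : b ^ 2 < a ^ 2) :
    ∃ t : ℝ, 0 ≤ t ∧ cosh t * sqrt (a ^ 2 - b ^ 2) = |a| ∧
      hh p a b = 2 * sqrt (a ^ 2 - b ^ 2) ^ p * cosh (p * t) := by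
  set ρ := sqrt (a ^ 2 - b ^ 2) with hρ
  have hρ0 : 0 < ρ := Real.sqrt_pos.2 (by linarith)
  have hρ2 : ρ ^ 2 = a ^ 2 - b ^ 2 := Real.sq_sqrt (by linarith)
  refine ⟨arsinh (|b| / ρ), ?_, ?_, ?_⟩
  · exact Real.arsinh_nonneg_iff.2 (by positivity)
  · rw [Real.cosh_arsinh]
    have h1 : 1 + (|b| / ρ) ^ 2 = (|a| / ρ) ^ 2 := by
      rw [div_pow, div_pow, sq_abs, sq_abs]
      field_simp
      linarith
    rw [h1, Real.sqrt_sq (by positivity)]
    field_simp
  · rw [← hh_abs]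
    have hb : |b| = ρ * sinh (arsinh (|b| / ρ)) := by
      rw [Real.sinh_arsinh]; field_simp
    have ha : |a| = ρ * cosh (arsinh (|b| / ρ)) := by
      rw [Real.cosh_arsinh]
      have h1 : 1 + (|b| / ρ) ^ 2 = (|a| / ρ) ^ 2 := by
        rw [div_pow, div_pow, sq_abs, sq_abs]
        field_simp
        linarith
      rw [h1, Real.sqrt_sq (by positivity)]
      field_simp
    set t := arsinh (|b| / ρ) with ht
    unfold hh
    rw [ha, hb]
    have e1 : ρ * cosh t + ρ * sinh t = ρ * exp t := by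
      rw [← mul_add, Real.cosh_add_sinh]
    have e2 : ρ * cosh t - ρ * sinh t = ρ * exp (-t) := by
      rw [← mul_sub, Real.cosh_sub_sinh]
    rw [e1, e2, abs_of_pos (by positivity), abs_of_pos (by positivity),
      Real.mul_rpow hρ0.le (exp_pos _).le, Real.mul_rpow hρ0.le (exp_pos _).le,
      ← Real.exp_mul, ← Real.exp_mul, Real.cosh_eq]
    have e3 : t * p = p * t := mul_comm _ _
    have e4 : -t * p = -(p * t) := by ring
    rw [e3, e4]
    ring

theorem pow_mean {p : ℝ} (hp : 1 ≤ p) (a b : ℝ) : 2 * |a| ^ p ≤ hh p a b := by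
  have h1 := (convexOn_rpow hp).2 (Set.mem_Ici.2 (abs_nonneg (a + b)))
    (Set.mem_Ici.2 (abs_nonneg (a - b))) (by norm_num : (0 : ℝ) ≤ 1 / 2)
    (by norm_num : (0 : ℝ) ≤ 1 / 2) (by norm_num)
  simp only [smul_eq_mul] at h1
  have h2 : |a| ≤ 1 / 2 * |a + b| + 1 / 2 * |a - b| := by
    have h3 : a = 1 / 2 * (a + b) + 1 / 2 * (a - b) := by ring
    calc |a| = |1 / 2 * (a + b) + 1 / 2 * (a - b)| := by rw [← h3]
      _ ≤ |1 / 2 * (a + b)| + |1 / 2 * (a - b)| := abs_add_le _ _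
      _ = 1 / 2 * |a + b| + 1 / 2 * |a - b| := by
          rw [abs_mul, abs_mul, abs_of_pos (by norm_num : (0 : ℝ) < 1 / 2)]
  have h3 : |a| ^ p ≤ (1 / 2 * |a + b| + 1 / 2 * |a - b|) ^ p :=
    Real.rpow_le_rpow (abs_nonneg _) h2 (by linarith)
  unfold hh
  linarith

/-- the two-point inequality -/
theorem two_point {p : ℝ} (hp : 1 ≤ p) {M D m d ζ : ℝ} (hD : D ^ 2 ≤ M ^ 2)
    (hζ : ζ ^ 2 = m ^ 2 * D ^ 2 + (M ^ 2 - D ^ 2) * d ^ 2) :
    2 * hh p (m * M) ζ ≤ hh p M D * hh p m d := by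
  have hp0 : (0 : ℝ) < p := by linarith
  have hdiag : ∀ a b : ℝ, b ^ 2 = a ^ 2 → hh p a b = (2 * |a|) ^ p := by
    intro a b h
    rcases sq_eq_sq_iff_eq_or_eq_neg.1 h with h | h
    · unfold hh
      rw [h, sub_self, abs_zero, Real.zero_rpow hp0.ne', add_zero, ← two_mul, abs_mul]
      norm_num
    · rw [h, hh_neg_right]
      unfold hh
      rw [sub_self, abs_zero, Real.zero_rpow hp0.ne', add_zero, ← two_mul, abs_mul]
      norm_num
  rcases hD.eq_or_lt with hD | hD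
  · -- M² = D²
    have h1 : ζ ^ 2 = (m * M) ^ 2 := by rw [hζ, hD]; ring
    rw [hdiag _ _ h1, hdiag _ _ hD, abs_mul, ← mul_assoc,
      show 2 * |m| * |M| = |m| * (2 * |M|) by ring, Real.mul_rpow (abs_nonneg _) (by positivity)]
    have h2 := pow_mean hp m d
    have h3 : 0 ≤ (2 * |M|) ^ p := by positivity
    nlinarith
  rcases lt_trichotomy (d ^ 2) (m ^ 2) with hmd | hmd | hmd
  · -- |d| < |m|
    have h1 : (m * M) ^ 2 - ζ ^ 2 = (M ^ 2 - D ^ 2) * (m ^ 2 - d ^ 2) := by rw [hζ]; ring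
    have h2 : ζ ^ 2 < (m * M) ^ 2 := by
      have := mul_pos (sub_pos.2 hD) (sub_pos.2 hmd)
      linarith
    obtain ⟨s, hs0, hs1, hs2⟩ := hh_hyp p hD
    obtain ⟨t, ht0, ht1, ht2⟩ := hh_hyp p hmd
    obtain ⟨z, hz0, hz1, hz2⟩ := hh_hyp p h2
    rw [hs2, ht2, hz2, h1, Real.sqrt_mul (sub_pos.2 hD).le, Real.mul_rpow (sqrt_nonneg _)
      (sqrt_nonneg _)]
    have hρ : 0 < sqrt (M ^ 2 - D ^ 2) := Real.sqrt_pos.2 (sub_pos.2 hD)
    have hτ : 0 < sqrt (m ^ 2 - d ^ 2) := Real.sqrt_pos.2 (sub_pos.2 hmd)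
    have h3 : cosh z = cosh s * cosh t := by
      have e : cosh z * (sqrt (M ^ 2 - D ^ 2) * sqrt (m ^ 2 - d ^ 2)) =
          cosh s * cosh t * (sqrt (M ^ 2 - D ^ 2) * sqrt (m ^ 2 - d ^ 2)) := by
        rw [← Real.sqrt_mul (sub_pos.2 hD).le, ← h1, hz1, h1, Real.sqrt_mul (sub_pos.2 hD).le,
          abs_mul, ← hs1, ← ht1]
        ring
      exact mul_right_cancel₀ (by positivity) e
    have h4 := cosh_key hp hz0 h3.le
    have h5 : 0 ≤ sqrt (M ^ 2 - D ^ 2) ^ p * sqrt (m ^ 2 - d ^ 2) ^ p := by positivity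
    nlinarith
  · -- |d| = |m|
    have h1 : ζ ^ 2 = (m * M) ^ 2 := by rw [hζ, hmd]; ring
    rw [hdiag _ _ h1, hdiag _ _ hmd, abs_mul, ← mul_assoc,
      show 2 * |m| * |M| = |M| * (2 * |m|) by ring, Real.mul_rpow (abs_nonneg _) (by positivity)]
    have h2 := pow_mean hp M D
    have h3 : 0 ≤ (2 * |m|) ^ p := by positivity
    nlinarith
  · -- |m| < |d|
    have h1 : ζ ^ 2 - (m * M) ^ 2 = (M ^ 2 - D ^ 2) * (d ^ 2 - m ^ 2) := by rw [hζ]; ring
    have h2 : (m * M) ^ 2 < ζ ^ 2 := by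
      have := mul_pos (sub_pos.2 hD) (sub_pos.2 hmd)
      linarith
    obtain ⟨s, hs0, hs1, hs2⟩ := hh_hyp p hD
    obtain ⟨t, ht0, ht1, ht2⟩ := hh_hyp p hmd
    obtain ⟨z, hz0, hz1, hz2⟩ := hh_hyp p h2
    rw [hh_comm p m d, hh_comm p (m * M) ζ, hs2, ht2, hz2, h1, Real.sqrt_mul (sub_pos.2 hD).le,
      Real.mul_rpow (sqrt_nonneg _) (sqrt_nonneg _)]
    have hρ : 0 < sqrt (M ^ 2 - D ^ 2) := Real.sqrt_pos.2 (sub_pos.2 hD)
    have hτ : 0 < sqrt (d ^ 2 - m ^ 2) := Real.sqrt_pos.2 (sub_pos.2 hmd)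
    have h3 : cosh z ≤ cosh s * cosh t := by
      have e : cosh z * (sqrt (M ^ 2 - D ^ 2) * sqrt (d ^ 2 - m ^ 2)) ≤
          cosh s * cosh t * (sqrt (M ^ 2 - D ^ 2) * sqrt (d ^ 2 - m ^ 2)) := by
        rw [← Real.sqrt_mul (sub_pos.2 hD).le, ← h1, hz1, h1, Real.sqrt_mul (sub_pos.2 hD).le]
        have e2 : cosh s * cosh t * (sqrt (M ^ 2 - D ^ 2) * sqrt (d ^ 2 - m ^ 2)) = |M * d| := by
          rw [abs_mul, ← hs1, ← ht1]; ring
        rw [e2]
        apply sq_le_sq.1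
        rw [hζ]
        nlinarith [mul_nonneg (sq_nonneg D) (sub_pos.2 hmd).le]
      exact le_of_mul_le_mul_right e (by positivity)
    have h4 := cosh_key hp hz0 h3
    have h5 : 0 ≤ sqrt (M ^ 2 - D ^ 2) ^ p * sqrt (d ^ 2 - m ^ 2) ^ p := by positivity
    nlinarith

/-- two coordinates of a multi-affine function -/
theorem two_coord {p : ℝ} (hp : 1 ≤ p) {g₁ g₂ : ℝ} (h₁ : 0 ≤ g₁) (h₂ : 0 ≤ g₂)
    (hg : g₁ ^ p + g₂ ^ p = 2) (v₁ v₂ F0 F1 F2 F3 : ℝ) :
    ∃ a b : ℝ, |a| ^ p + |b| ^ p ≤ |v₁| ^ p + |v₂| ^ p ∧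
      F0 + a * F1 + b * F2 + a * b * F3 ≤
        ((F0 + g₁ * v₁ * F1 + g₂ * v₂ * F2 + g₁ * v₁ * (g₂ * v₂) * F3) +
          (F0 + g₁ * v₂ * F1 + g₂ * v₁ * F2 + g₁ * v₂ * (g₂ * v₁) * F3)) / 2 := by
  set M := (g₁ + g₂) / 2 with hM
  set D := (g₁ - g₂) / 2 with hDdef
  set m := (v₁ + v₂) / 2 with hm
  set d := (v₁ - v₂) / 2 with hd
  have hMD1 : g₁ = M + D := by rw [hM, hDdef]; ring
  have hMD2 : g₂ = M - D := by rw [hM, hDdef]; ring
  have hmd1 : v₁ = m + d := by rw [hm, hd]; ring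
  have hmd2 : v₂ = m - d := by rw [hm, hd]; ring
  have hD2 : D ^ 2 ≤ M ^ 2 := by
    have : 0 ≤ (M + D) * (M - D) := by rw [← hMD1, ← hMD2]; positivity
    nlinarith
  have hnn : 0 ≤ m ^ 2 * D ^ 2 + (M ^ 2 - D ^ 2) * d ^ 2 := by
    have := sub_nonneg.2 hD2
    positivity
  set ζ := sqrt (m ^ 2 * D ^ 2 + (M ^ 2 - D ^ 2) * d ^ 2) with hζ
  have hζ0 : 0 ≤ ζ := sqrt_nonneg _
  have hζ2 : ζ ^ 2 = m ^ 2 * D ^ 2 + (M ^ 2 - D ^ 2) * d ^ 2 := Real.sq_sqrt hnn
  have key := two_point hp hD2 hζ2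
  have e1 : hh p M D = 2 := by
    unfold hh
    rw [← hMD1, ← hMD2, abs_of_nonneg h₁, abs_of_nonneg h₂, hg]
  have e2 : hh p m d = |v₁| ^ p + |v₂| ^ p := by
    unfold hh
    rw [← hmd1, ← hmd2]
  rw [e1, e2] at key
  have hmD : |m * D| ≤ ζ := by
    apply abs_le_of_sq_le_sq _ hζ0
    rw [hζ2, mul_pow]
    have := mul_nonneg (sub_nonneg.2 hD2) (sq_nonneg d)
    linarith
  have hmD' := abs_le.1 hmD
  rcases le_total F1 F2 with hF | hF
  · refine ⟨m * M + ζ, m * M - ζ, ?_, ?_⟩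
    · unfold hh at key
      linarith
    · rw [hMD1, hMD2, hmd1, hmd2]
      have h3 : (m * M + ζ) * (m * M - ζ) = (M + D) * (M - D) * ((m + d) * (m - d)) := by
        have : (m * M + ζ) * (m * M - ζ) = (m * M) ^ 2 - ζ ^ 2 := by ring
        rw [this, hζ2]; ring
      rw [h3]
      nlinarith [mul_nonneg (sub_nonneg.2 hF) (by linarith [hmD'.2] : 0 ≤ ζ - m * D)]
  · refine ⟨m * M - ζ, m * M + ζ, ?_, ?_⟩
    · unfold hh at key
      linarith
    · rw [hMD1, hMD2, hmd1, hmd2]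
      have h3 : (m * M - ζ) * (m * M + ζ) = (M + D) * (M - D) * ((m + d) * (m - d)) := by
        have : (m * M - ζ) * (m * M + ζ) = (m * M) ^ 2 - ζ ^ 2 := by ring
        rw [this, hζ2]; ring
      rw [h3]
      nlinarith [mul_nonneg (sub_nonneg.2 hF) (by linarith [hmD'.1] : 0 ≤ ζ + m * D)]

end Pool.Agent.H31.Hoffman
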